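import Pool.Agent.R482.Las

/-!
# The joint conjecture up to very few elements of arbitrary sets which meet every interval `[x, b x]`

Arbitrary shifts of the von Mangoldt function (the first of which is `0`) and of the Liouville function satisfy the
conjecture, up to the length `N`, after at most `C (log log N) ^ 2` elements of prescribed sets of integers have been
added to each of them but the first; the sets need only have an element in every interval `[x, b x]`. Used from the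
starting files: the corresponding theorems for prime tuples and for the Liouville function with weights
(`Pool.Agent.Y885.las_tuples`, `Pool.Agent.Y885.las_kpt`).
-/

set_option autoImplicit false

namespace Pool.Agent.Results.MP_e6fa8b_nt.ElementsOfAnySets

open Finset Filter

/-- The set `A` contains an element of every interval `[x, b x]`, `x ≥ 1`. -/
def Meets (b : ℕ) (A : Set ℕ) : Prop := ∀ x : ℕ, 1 ≤ x → ∃ a ∈ A, x ≤ a ∧ a ≤ b * x

/-- `S` is a set of at most `C (log log N) ^ 2` elements of `A`, all between `log ^ H N` and `N / log ^ H N`. -/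
def Few (C : ℝ) (H N : ℕ) (A : Set ℕ) (S : Finset ℕ) : Prop :=
  (∀ a ∈ S, a ∈ A ∧ Real.log N ^ H ≤ a ∧ (a : ℝ) ≤ N / Real.log N ^ H) ∧
    (S.card : ℝ) ≤ C * Real.log (Real.log N) ^ 2

/-- The shifts `h i`, with the elements of `S i` added. -/
def moved {k : ℕ} (h : Fin k → ℕ) (S : Fin k → Finset ℕ) (i : Fin k) : ℕ := h i + ∑ a ∈ S i, a

/-- For every prime `p` there is an integer `r` such that `p` divides none of the `r + h i`. -/
def Admissible {k : ℕ} (h : Fin k → ℕ) : Prop := ∀ p : ℕ, p.Prime → ∃ r : ℤ, ∀ i, ¬ (p : ℤ) ∣ r + h i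

/-- The number `ν_p` of the distinct residues modulo `p` among the shifts `h i`. -/
def nu {k : ℕ} (h : Fin k → ℕ) (p : ℕ) : ℕ := (univ.image fun i => h i % p).card

/-- The product of the factors `β_p` of the singular series of the shifts `h i` over the primes `p ≤ z`. -/
noncomputable def sing {k : ℕ} (h : Fin k → ℕ) (z : ℕ) : ℝ :=
  ∏ p ∈ (Icc 1 z).filter Nat.Prime, ((1 - 1 / (p : ℝ)) ^ k)⁻¹ * (1 - (nu h p : ℝ) / p)

/-- The Liouville function, with complex values. -/
noncomputable def lam (n : ℕ) : ℂ := (-1) ^ ArithmeticFunction.cardFactors n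

/-- The singular series `S` of the shifts `h i` converges, is positive, and
`|∑_{n ≤ N} ∏ i, Λ(n + h i) - S N| ≤ N / log ^ U N`. -/
def HardyLittlewood (U N : ℕ) {k : ℕ} (h : Fin k → ℕ) : Prop :=
  ∃ S : ℝ, 0 < S ∧ Tendsto (sing h) atTop (nhds S) ∧
    |∑ n ∈ Icc 1 N, ∏ i, ArithmeticFunction.vonMangoldt (n + h i) - S * N| ≤ N / Real.log N ^ U

/-- For every set `K` of indices of the shifts `a i` and every nonempty set `J` of indices of the forms `α j n + c j`,
`|∑_{n ≤ X} θ(n) ∏_{i ∈ K} Λ(n + a i) ∏_{j ∈ J} λ(α j n + c j)| ≤ N / log ^ U N` for all `X` with `X ≤ B N` and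
`α j X ≤ B N` (`j ∈ J`). -/
def LiouvilleSmall (B U N : ℕ) (θ : ℕ → ℂ) {k l : ℕ} (a : Fin k → ℕ) (α c : Fin l → ℕ) : Prop :=
  ∀ K : Finset (Fin k), ∀ J : Finset (Fin l), J.Nonempty → ∀ X : ℕ, X ≤ B * N → (∀ j ∈ J, α j * X ≤ B * N) →
    ‖∑ n ∈ Icc 1 X, θ n * (∏ i ∈ K, (ArithmeticFunction.vonMangoldt (n + a i) : ℂ)) * ∏ j ∈ J, lam (α j * n + c j)‖ ≤
      N / Real.log N ^ U

lemma sing_eq {k : ℕ} (a : Fin k → ℕ) :
    (fun z => Pool.Agent.H373R2.T7.singZ (fun i => (a i : ℤ)) z) = sing (Fin.cons 0 a : Fin (k + 1) → ℕ) := by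
  funext z
  have h1 := Pool.Agent.R482.Sg.singZ_sg (Fin.cons 0 a : Fin (k + 1) → ℕ) z
  simp only [Fin.cons_zero, Fin.cons_succ, Nat.cast_zero, sub_zero] at h1
  rw [h1]
  rfl

lemma adm_eq {k : ℕ} (a : Fin k → ℕ) :
    Pool.Agent.H373R2.T7.Admissible (fun i => (a i : ℤ)) ↔ Admissible (Fin.cons 0 a : Fin (k + 1) → ℕ) := by
  unfold Pool.Agent.H373R2.T7.Admissible Admissible
  apply forall_congr'
  intro p
  apply imp_congr_right
  intro _
  apply exists_congr
  intro r
  rw [Fin.forall_fin_succ]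
  simp only [Fin.cons_zero, Fin.cons_succ, Nat.cast_zero, add_zero]

/-- For all `k ≥ 1`, `b ≥ 2`, `κ` and `U` there is a constant `C` such that for all `H` and `B` there is an `N₀` with the
following property. Let `N ≥ N₀`, let `0 ≤ h 1, ..., h k ≤ B N` be arbitrary integers such that the tuple
`0, h 1, ..., h k` is admissible, let `0 ≤ c 1, ..., c t ≤ B N` be arbitrary integers, where
`2 ^ t ≤ log ^ κ N`, and let `A i` and `A' j` be arbitrary sets of integers which meet every interval `[x, b x]`. Let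
`α 1, ..., α t ≥ 1`, and let `θ q` be at most `log ^ κ N` weights, bounded by `log ^ κ N` on `[1, B N]`. Then there
are sets `S i` and `S' j` of at most `C (log log N) ^ 2` elements of `A i` and of `A' j` such that the
tuple `0, a 1, ..., a k`, where `a i` is the sum of `h i` and of the elements of `S i`, is admissible and satisfies the
formula of Hardy and Littlewood, and such that all the correlations of the von Mangoldt function at `n`, `n + a i` and of
the Liouville function at the `α j n + c' j`, where `c' j` is the sum of `c j` and of the elements of `S' j`, with at least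
one Liouville factor and with each of the weights `θ q` and `θ q Λ`, are small. -/
theorem result (k b κ U : ℕ) (hk : 1 ≤ k) (hb : 2 ≤ b) : ∃ C : ℝ, ∀ H B : ℕ, ∃ N₀ : ℕ, ∀ N : ℕ, N₀ ≤ N →
    ∀ A : Fin k → Set ℕ, (∀ i, Meets b (A i)) →
    ∀ h : Fin k → ℕ, (∀ i, h i ≤ B * N) → Admissible (Fin.cons 0 h : Fin (k + 1) → ℕ) →
    ∀ t : ℕ, (2 : ℝ) ^ t ≤ Real.log N ^ κ →
    ∀ A' : Fin t → Set ℕ, (∀ j, Meets b (A' j)) → ∀ c : Fin t → ℕ, (∀ j, c j ≤ B * N) →
    ∀ α : Fin t → ℕ, (∀ j, 1 ≤ α j) →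
    ∀ L : ℕ, (L : ℝ) ≤ Real.log N ^ κ →
    ∀ θ : Fin L → ℕ → ℂ, (∀ q n, 1 ≤ n → n ≤ B * N → ‖θ q n‖ ≤ Real.log N ^ κ) →
    ∃ (S : Fin k → Finset ℕ) (S' : Fin t → Finset ℕ), (∀ i, Few C H N (A i) (S i)) ∧ (∀ j, Few C H N (A' j) (S' j)) ∧
      Admissible (Fin.cons 0 (moved h S) : Fin (k + 1) → ℕ) ∧
      HardyLittlewood U N (Fin.cons 0 (moved h S) : Fin (k + 1) → ℕ) ∧
      ∀ q, LiouvilleSmall B U N (θ q) (moved h S) α (moved c S') ∧
        LiouvilleSmall B U N (fun n => θ q n * (ArithmeticFunction.vonMangoldt n : ℂ)) (moved h S) α (moved c S') := by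
  classical
  obtain ⟨C, hC⟩ := Pool.Agent.R482.Las.las_joint k b (κ + 2) U hk hb
  refine ⟨C, fun H B => ?_⟩
  obtain ⟨N₀, h0⟩ := hC H B
  obtain ⟨N₁, h1⟩ := Pool.Agent.H373R2.T7.ev_L' (Real.log (B + 1 : ℝ) + 8)
  refine ⟨N₀ + N₁ + 3, fun N hN A hA h hh hadm t ht A' hA' c hc α hα L hL θ hθ => ?_⟩
  have hLg := h1 N (by omega)
  have hN0' : (0 : ℝ) < N := by exact_mod_cast (by omega : 0 < N)
  have hB0' : (0 : ℝ) ≤ B := Nat.cast_nonneg _
  have hlc1 : 0 ≤ Real.log (B + 1 : ℝ) := Real.log_nonneg (by linarith)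
  obtain ⟨Lg, hLgd⟩ : ∃ Lg, Lg = Real.log N := ⟨_, rfl⟩
  have hL8 : 8 ≤ Lg := by rw [hLgd]; linarith
  have hL1 : 1 ≤ Lg := by linarith
  have hmono : Lg ^ κ ≤ Lg ^ (κ + 2) := pow_le_pow_right₀ hL1 (by omega)
  have hΛ : ∀ n, 1 ≤ n → n ≤ B * N → ‖(ArithmeticFunction.vonMangoldt n : ℂ)‖ ≤ Lg ^ 2 := by
    intro n hn1 hn2
    rw [Complex.norm_real, Real.norm_eq_abs, abs_of_nonneg ArithmeticFunction.vonMangoldt_nonneg]
    refine ArithmeticFunction.vonMangoldt_le_log.trans ?_
    have h6 : (n : ℝ) ≤ (B + 1 : ℝ) * N := by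
      have h8 : (n : ℝ) ≤ ((B * N : ℕ) : ℝ) := by exact_mod_cast hn2
      push_cast at h8
      linarith
    refine (Real.log_le_log (by exact_mod_cast (by omega : 0 < n)) h6).trans ?_
    rw [Real.log_mul (by positivity) hN0'.ne', ← hLgd]
    rw [← hLgd] at hLg
    nlinarith
  obtain ⟨e, -⟩ : ∃ e : (Fin L × Bool) ≃ Fin (L * 2), True := by
    refine ⟨(Fintype.equivFinOfCardEq ?_), trivial⟩
    simp
  obtain ⟨S, S', hS, hS', had, ⟨S₀, hS0, hSt, hHL⟩, hLi⟩ := h0 N (by omega) A hA h hh ((adm_eq h).2 hadm) t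
    (ht.trans (by rw [← hLgd]; exact hmono)) A' hA' c hc α hα (L * 2) (by
      rw [← hLgd] at hL ⊢
      push_cast
      rw [pow_add]
      apply mul_le_mul hL _ (by norm_num) (by positivity)
      nlinarith)
    (fun q n => θ (e.symm q).1 n * (if (e.symm q).2 then (ArithmeticFunction.vonMangoldt n : ℂ) else 1)) (by
      intro q n hn1 hn2
      rw [← hLgd] at hθ ⊢
      rw [norm_mul, pow_add]
      apply mul_le_mul (hθ _ n hn1 hn2) _ (norm_nonneg _) (by positivity)
      split_ifs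
      · exact hΛ n hn1 hn2
      · rw [norm_one]; nlinarith)
  have hlaR : ∀ n : ℕ, ((Pool.Agent.Y885.laR n : ℝ) : ℂ) = lam n := by
    intro n
    unfold Pool.Agent.Y885.laR lam
    push_cast
    rfl
  refine ⟨S, S', hS, hS', (adm_eq _).1 had, ⟨S₀, hS0, ?_, ?_⟩, fun q => ⟨fun K J hJ X hX hX' => ?_, fun K J hJ X hX hX' => ?_⟩⟩
  · rw [← sing_eq]
    exact hSt
  · refine le_trans (le_of_eq ?_) hHL
    congr 2
    apply sum_congr rfl
    intro n _
    rw [Fin.prod_univ_succ, Fin.cons_zero, add_zero]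
    simp only [Fin.cons_succ]
    rfl
  · have h3 := hLi (e (q, false)) K J hJ X hX hX'
    refine le_trans (le_of_eq ?_) h3
    congr 1
    apply sum_congr rfl
    intro n _
    rw [Equiv.symm_apply_apply]
    simp only [Bool.false_eq_true, if_false, mul_one, hlaR]
    rfl
  · have h3 := hLi (e (q, true)) K J hJ X hX hX'
    refine le_trans (le_of_eq ?_) h3
    congr 1
    apply sum_congr rfl
    intro n _
    rw [Equiv.symm_apply_apply]
    simp only [if_true, hlaR]
    rfl

end Pool.Agent.Results.MP_e6fa8b_nt.ElementsOfAnySets
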