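import Pool.Agent.R482.Rs
import Pool.Agent.R482.Sing
import Pool.Agent.R482.Vm

/-!
# The joint conjecture for shifts which are random sums with up to two fifths of the scales missing

The shifts of the von Mangoldt function (but the first, which is `0`) and those of the Liouville function are sums of
independent random integers, one at every scale `b ^ j`; at up to two fifths of the scales these integers may be
constants. Used from the starting files: the corresponding theorems for prime tuples and for the Liouville function with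
weights (`Pool.Agent.Y885.rs_tuples`, `Pool.Agent.Y885.rs_kpt`).
-/

set_option autoImplicit false

namespace Pool.Agent.Results.MP_e6fa8b_nt.RandomSumShifts

open Finset Filter

/-- The set `J` of scales below `k` is rich: it contains more than three fifths of all the scales, more than one half
of the `m` lowest scales, and a positive proportion of the `m` highest scales (the last two conditions are
void for `m ≤ D log k`). -/
structure Rich (δ : ℝ) (D k : ℕ) (J : Finset ℕ) : Prop where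
  lt : ∀ j ∈ J, j < k
  all : (3 / 5 + δ) * k ≤ (J.card : ℝ)
  low : ∀ m ≤ k, (1 / 2 + δ) * m ≤ ((J.filter fun j => j < m).card : ℝ) + D * Real.log k
  high : ∀ m ≤ k, δ * m ≤ ((J.filter fun j => k - m ≤ j).card : ℝ) + D * Real.log k

/-- The laws `p j` (on the finite sets `σ j`) of the random integers `x j`, `j < k`, are admitted: `|x j| ≤ B b ^ j`, and,
for all `j` in some rich set of scales, no interval of the length `b ^ j / B` contains `x j` with a probability
larger than `1 - η`. -/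
def Laws (b B D : ℕ) (η δ : ℝ) (k : ℕ) (σ : ℕ → Finset ℤ) (p : ℕ → ℤ → ℝ) : Prop :=
  (∀ j < k, (∀ x ∈ σ j, 0 ≤ p j x ∧ |x| ≤ (B : ℤ) * (b : ℤ) ^ j) ∧ ∑ x ∈ σ j, p j x = 1) ∧
  ∃ J : Finset ℕ, Rich δ D k J ∧
    ∀ j ∈ J, ∀ y : ℤ, ∑ x ∈ (σ j).filter (fun x => y ≤ x ∧ (B : ℤ) * (x - y) ≤ (b : ℤ) ^ j), p j x ≤ 1 - η

open Classical in
/-- The probability of the event `E` if the `x i j` (`i < s`, `j < k`) and the `y i j` (`i < t`, `j < k`) are
independent random integers, where `x i j` takes its values in the finite set `σ i j`, and the value `v` with the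
probability `p i j v`, and `y i j` takes its values in `τ i j`, and the value `v` with the probability `q i j v`. -/
noncomputable def Prob (s t k : ℕ) (σ : Fin s → ℕ → Finset ℤ) (p : Fin s → ℕ → ℤ → ℝ) (τ : Fin t → ℕ → Finset ℤ)
    (q : Fin t → ℕ → ℤ → ℝ) (E : (Fin s → Fin k → ℤ) → (Fin t → Fin k → ℤ) → Prop) : ℝ :=
  ∑ x ∈ Fintype.piFinset (fun i : Fin s => Fintype.piFinset (fun j : Fin k => σ i j)),
    ∑ y ∈ Fintype.piFinset (fun i : Fin t => Fintype.piFinset (fun j : Fin k => τ i j)),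
      if E x y then (∏ i, ∏ j : Fin k, p i j (x i j)) * ∏ i, ∏ j : Fin k, q i j (y i j) else 0

/-- For every prime `p` there is an integer `r` such that `p` divides none of the `r + h i`. -/
def Admissible {k : ℕ} (h : Fin k → ℕ) : Prop := ∀ p : ℕ, p.Prime → ∃ r : ℤ, ∀ i, ¬ (p : ℤ) ∣ r + h i

/-- The number `ν_p` of the distinct residues modulo `p` among the shifts `h i`. -/
def nu {k : ℕ} (h : Fin k → ℕ) (p : ℕ) : ℕ := (univ.image fun i => h i % p).card

/-- The product of the factors `β_p` of the singular series of the shifts `h i` over the primes `p ≤ z`. -/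
noncomputable def sing {k : ℕ} (h : Fin k → ℕ) (z : ℕ) : ℝ :=
  ∏ p ∈ (Icc 1 z).filter Nat.Prime, ((1 - 1 / (p : ℝ)) ^ k)⁻¹ * (1 - (nu h p : ℝ) / p)

/-- The von Mangoldt function on the integers, `0` at the integers `m ≤ 0`, with complex values. -/
noncomputable def vm (m : ℤ) : ℂ := (ArithmeticFunction.vonMangoldt m.toNat : ℂ)

/-- The Liouville function on the integers, `0` at the integers `m ≤ 0`, with complex values. -/
noncomputable def lam (m : ℤ) : ℂ := if 0 < m then (-1) ^ ArithmeticFunction.cardFactors m.toNat else 0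

/-- The singular series `S` of the shifts `h i` converges, is positive if the shifts are admissible, and
`|∑_{n ≤ N} ∏ i, Λ(n + h i) - S N| ≤ N / log ^ U N`. -/
def HardyLittlewood (U N : ℕ) {k : ℕ} (h : Fin k → ℕ) : Prop :=
  ∃ S : ℝ, (Admissible h → 0 < S) ∧ Tendsto (sing h) atTop (nhds S) ∧
    |∑ n ∈ Icc 1 N, ∏ i, ArithmeticFunction.vonMangoldt (n + h i) - S * N| ≤ N / Real.log N ^ U

/-- For every set `K` of indices of the shifts `a i` and every nonempty set `I` of indices of the forms `α i n + c i`,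
`|∑_{n ≤ X} θ(n) ∏_{i ∈ K} Λ(n + a i) ∏_{i ∈ I} λ(α i n + c i)| ≤ M` for all `X` with
`α i X ≤ H` (`i ∈ I`). -/
def LiouvilleSmall (H : ℕ) (M : ℝ) (θ : ℕ → ℂ) {s t : ℕ} (a : Fin s → ℤ) (α : Fin t → ℕ) (c : Fin t → ℤ) : Prop :=
  ∀ K : Finset (Fin s), ∀ I : Finset (Fin t), I.Nonempty → ∀ X : ℕ, (∀ i ∈ I, α i * X ≤ H) →
    ‖∑ n ∈ Icc 1 X, θ n * (∏ i ∈ K, vm (n + a i)) * ∏ i ∈ I, lam (α i * n + c i)‖ ≤ M

lemma sing_eq {k : ℕ} (a : Fin k → ℕ) :
    (fun z => Pool.Agent.H373R2.T7.singZ (fun i => (a i : ℤ)) z) = sing (Fin.cons 0 a : Fin (k + 1) → ℕ) := by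
  funext z
  have h1 := Pool.Agent.R482.Sg.singZ_sg (Fin.cons 0 a : Fin (k + 1) → ℕ) z
  simp only [Fin.cons_zero, Fin.cons_succ, Nat.cast_zero, sub_zero] at h1
  rw [h1]
  rfl

lemma adm_eq {k : ℕ} (a : Fin k → ℕ) :
    Pool.Agent.H373R2.T7.Admissible (fun i => (a i : ℤ)) ↔ Admissible (Fin.cons 0 a : Fin (k + 1) → ℕ) := by
  unfold Pool.Agent.H373R2.T7.Admissible Admissible
  apply forall_congr'
  intro p
  apply imp_congr_right
  intro _
  apply exists_congr
  intro r
  rw [Fin.forall_fin_succ]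
  simp only [Fin.cons_zero, Fin.cons_succ, Nat.cast_zero, add_zero]

/-- Let `s ≥ 1`, `b ≥ 2`, `B ≥ 1`, `D`, `κ`, `U`, `η > 0` and `δ > 0` be fixed, and let `k` be large. Let the `x i j`
(`i < s`, `j < k`) and the `y i j` (`i < t`, `j < k`, where `2 ^ t ≤ k ^ κ`) be arbitrary independent random integers
with admitted laws: `|x i j| ≤ B b ^ j`, `|y i j| ≤ B b ^ j`, and for every `i`, for all `j` in a rich set of scales, no
interval of the length `b ^ j / B` contains `x i j` (or `y i j`) with a probability larger than `1 - η`; the other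
`x i j` and `y i j` may be constants. Let `|c i|, |c' i| ≤ B b ^ k` be arbitrary integers, let `α i ≥ 1`, let
`b ^ k / B ≤ N ≤ B b ^ k`, and let `θ q` be at most `k ^ κ` weights, bounded by `k ^ κ` on `[1, B b ^ k]`. Then, with a
probability of at least `1 - 1 / k ^ U`, the integers `a i = c i + ∑ j, x i j` and `a' i = c' i + ∑ j, y i j` have the
following properties: if no `a i` is negative, then the formula of Hardy and Littlewood holds for the shifts
`0, a 1, ..., a s`; and all the correlations of the von Mangoldt function at `n`, `n + a i` and of the Liouville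
function at `α i n + a' i`, with at least one Liouville factor and with each of the weights `θ q` and
`θ q Λ`, are at most `b ^ k / k ^ U`. -/
theorem result (s b B D κ U : ℕ) (hs : 1 ≤ s) (hb : 2 ≤ b) (hB : 1 ≤ B) (η δ : ℝ) (hη : 0 < η) (hδ : 0 < δ) :
    ∃ k₀ : ℕ, ∀ k : ℕ, k₀ ≤ k →
      ∀ (σ : Fin s → ℕ → Finset ℤ) (p : Fin s → ℕ → ℤ → ℝ), (∀ i, Laws b B D η δ k (σ i) (p i)) →
      ∀ c : Fin s → ℤ, (∀ i, |c i| ≤ (B : ℤ) * (b : ℤ) ^ k) →
      ∀ N : ℕ, b ^ k ≤ B * N → N ≤ B * b ^ k →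
      ∀ t : ℕ, 2 ^ t ≤ k ^ κ →
      ∀ (τ : Fin t → ℕ → Finset ℤ) (q : Fin t → ℕ → ℤ → ℝ), (∀ i, Laws b B D η δ k (τ i) (q i)) →
      ∀ c' : Fin t → ℤ, (∀ i, |c' i| ≤ (B : ℤ) * (b : ℤ) ^ k) →
      ∀ α : Fin t → ℕ, (∀ i, 1 ≤ α i) →
      ∀ L : ℕ, L ≤ k ^ κ → ∀ θ : Fin L → ℕ → ℂ, (∀ m n, 1 ≤ n → n ≤ B * b ^ k → ‖θ m n‖ ≤ (k : ℝ) ^ κ) →
        Prob s t k σ p τ q (fun x y => ¬
          (((∀ i, 0 ≤ c i + ∑ j, x i j) →
            HardyLittlewood U N (Fin.cons 0 (fun i => (c i + ∑ j, x i j).toNat) : Fin (s + 1) → ℕ)) ∧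
          ∀ m, LiouvilleSmall (B * b ^ k) ((b : ℝ) ^ k / (k : ℝ) ^ U) (θ m) (fun i => c i + ∑ j, x i j) α
              (fun i => c' i + ∑ j, y i j) ∧
            LiouvilleSmall (B * b ^ k) ((b : ℝ) ^ k / (k : ℝ) ^ U)
              (fun n => θ m n * (ArithmeticFunction.vonMangoldt n : ℂ)) (fun i => c i + ∑ j, x i j) α
              (fun i => c' i + ∑ j, y i j))) ≤ 1 / (k : ℝ) ^ U := by
  classical
  obtain ⟨k₀, h0⟩ := Pool.Agent.R482.Rs.rs_joint s b B D (κ + 2) (U + 1) hs hb hB η δ 1 hη hδ one_pos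
  obtain ⟨k₁, h1⟩ := Pool.Agent.R482.Rs.vm_bound b B hb hB
  obtain ⟨N₂, h2⟩ := Pool.Agent.R482.Vm.vm_of_tuple s U (2 * B * B)
  refine ⟨k₀ + k₁ + B * N₂ + 2, fun k hk σ p hlaw c hc N hN1 hN2 t ht τ q hlaw' c' hc' α hα L hL θ hθ => ?_⟩
  choose hσ J hJ hJp using hlaw
  choose hσ' J' hJ' hJp' using hlaw'
  have hk2 : (2 : ℝ) ≤ k := by exact_mod_cast (by omega : 2 ≤ k)
  have hk1 : (1 : ℝ) ≤ k := by linarith
  have hk0 : (0 : ℝ) < k := by linarith
  have hkb : k < b ^ k := Nat.lt_pow_self (by omega)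
  have hNN : N₂ ≤ N := by
    by_contra hcon
    have h5 : B * N ≤ B * N₂ := Nat.mul_le_mul_left _ (by omega)
    omega
  have hmono : (b : ℝ) ^ k / (k : ℝ) ^ (U + 1) ≤ (b : ℝ) ^ k / (k : ℝ) ^ U := by
    apply div_le_div_of_nonneg_left (by positivity) (by positivity)
    exact pow_le_pow_right₀ hk1 (by omega)
  have hY : ∀ i (ω : Fin k → ℤ), (∀ j : Fin k, ω j ∈ σ i j) → |c i + ∑ j : Fin k, ω j| ≤ 2 * (B : ℤ) * (b : ℤ) ^ k := by
    intro i ω hω
    have g1 : |∑ j : Fin k, ω j| ≤ ∑ j : Fin k, (B : ℤ) * (b : ℤ) ^ (j : ℕ) :=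
      (abs_sum_le_sum_abs _ _).trans (sum_le_sum fun j _ => ((hσ i j j.2).1 _ (hω j)).2)
    rw [← mul_sum] at g1
    have g2 := Pool.Agent.Y885.geo_le b hb k
    have g3 : (B : ℤ) * ∑ j : Fin k, (b : ℤ) ^ (j : ℕ) ≤ B * (b : ℤ) ^ k := mul_le_mul_of_nonneg_left g2 (by positivity)
    have g4 := abs_add_le (c i) (∑ j : Fin k, ω j)
    have g5 := hc i
    linarith
  obtain ⟨e, -⟩ : ∃ e : (Fin L × Bool) ≃ Fin (L * 2), True := by
    refine ⟨(Fintype.equivFinOfCardEq ?_), trivial⟩
    simp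
  have hvmC : ∀ m : ℤ, ((Pool.Agent.R482.Rs.vm m : ℝ) : ℂ) = vm m := fun m => rfl
  have hlam : ∀ m : ℤ, Pool.Agent.H373R2.T7.exI (fun n => ((Pool.Agent.Y885.laR n : ℝ) : ℂ)) m = lam m := by
    intro m
    unfold Pool.Agent.H373R2.T7.exI lam Pool.Agent.Y885.laR
    by_cases h5 : 1 ≤ m
    · rw [if_pos h5, if_pos (by omega)]
      push_cast
      rfl
    · rw [if_neg h5, if_neg (by omega)]
  have key := h0 k (by omega) J σ p c (fun i => ⟨(hJ i).lt, (hJ i).low, (hJ i).high, (hJ i).all⟩) hσ hJp hc N hN1 hN2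
    t (ht.trans (Nat.pow_le_pow_right (by omega) (by omega))) J' τ q c'
    (fun i => ⟨(hJ' i).lt, (hJ' i).low, (hJ' i).high, (hJ' i).all⟩) hσ' hJp' hc' (L * 2) (by
      rw [pow_add]
      apply Nat.mul_le_mul hL
      have hkn : 2 ≤ k := by omega
      nlinarith) α
    (fun m n => θ (e.symm m).1 n * (if (e.symm m).2 then (ArithmeticFunction.vonMangoldt n : ℂ) else 1)) hα (by
      intro m n hn1 hn2
      rw [norm_mul, pow_add]
      apply mul_le_mul (hθ _ n hn1 hn2) _ (norm_nonneg _) (by positivity)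
      split_ifs
      · have h5 := h1 k (by omega) (n : ℤ) (by
          have : (n : ℤ) ≤ (B : ℤ) * (b : ℤ) ^ k := by exact_mod_cast hn2
          have h6 : (0 : ℤ) ≤ (B : ℤ) * (b : ℤ) ^ k := by positivity
          linarith)
        rw [Complex.norm_real, Real.norm_eq_abs, abs_of_nonneg ArithmeticFunction.vonMangoldt_nonneg]
        exact h5
      · rw [norm_one]; nlinarith)
    (fun x y => (∀ i, ∀ j : Fin k, x i j ∈ σ i j) ∧ ¬
          (((∀ i, 0 ≤ c i + ∑ j, x i j) →
            HardyLittlewood U N (Fin.cons 0 (fun i => (c i + ∑ j, x i j).toNat) : Fin (s + 1) → ℕ)) ∧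
          ∀ m, LiouvilleSmall (B * b ^ k) ((b : ℝ) ^ k / (k : ℝ) ^ U) (θ m) (fun i => c i + ∑ j, x i j) α
              (fun i => c' i + ∑ j, y i j) ∧
            LiouvilleSmall (B * b ^ k) ((b : ℝ) ^ k / (k : ℝ) ^ U)
              (fun n => θ m n * (ArithmeticFunction.vonMangoldt n : ℂ)) (fun i => c i + ∑ j, x i j) α
              (fun i => c' i + ∑ j, y i j)))
    (fun x => Classical.decPred _) (by
      rintro x y ⟨hx, hxy⟩ hHL hLi
      apply hxy
      refine ⟨fun hpos => ?_, fun m => ⟨fun K I hI X hX => ?_, fun K I hI X hX => ?_⟩⟩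
      · obtain ⟨S, q1, q2, q3⟩ := hHL hpos
        refine ⟨S, fun had => (q3 ((adm_eq _).2 had)).1, ?_, ?_⟩
        · rw [← sing_eq]
          exact q1
        · have g1 := h2 N hNN (fun i => (c i + ∑ j, x i j).toNat) (fun i => by
            have g2 := hY i (x i) (hx i)
            rw [abs_le] at g2
            have g3 : (((c i + ∑ j, x i j).toNat : ℕ) : ℤ) ≤ ((2 * B * B * N : ℕ) : ℤ) := by
              rw [Int.toNat_of_nonneg (hpos i)]
              refine g2.2.trans ?_
              have g4 : (b : ℤ) ^ k ≤ (B : ℤ) * N := by exact_mod_cast hN1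
              push_cast
              have g5 := mul_le_mul_of_nonneg_left g4 (by positivity : (0 : ℤ) ≤ 2 * B)
              linarith
            exact_mod_cast g3) S q2
          refine le_trans (le_of_eq ?_) g1
          congr 2
          apply sum_congr rfl
          intro n _
          rw [Fin.prod_univ_succ, Fin.cons_zero, add_zero]
          simp only [Fin.cons_succ]
      · have h3 := (hLi (e (m, false)) K I hI X hX).trans hmono
        refine le_trans (le_of_eq ?_) h3
        congr 1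
        apply sum_congr rfl
        intro n _
        rw [Equiv.symm_apply_apply]
        simp only [Bool.false_eq_true, if_false, mul_one, hlam, hvmC]
        push_cast
        rfl
      · have h3 := (hLi (e (m, true)) K I hI X hX).trans hmono
        refine le_trans (le_of_eq ?_) h3
        congr 1
        apply sum_congr rfl
        intro n _
        rw [Equiv.symm_apply_apply]
        simp only [if_true, hlam, hvmC]
        push_cast
        rfl)
  have hU : 1 / (k : ℝ) ^ (U + 1) ≤ 1 / (k : ℝ) ^ U :=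
    one_div_le_one_div_of_le (by positivity) (pow_le_pow_right₀ hk1 (by omega))
  refine le_trans (le_of_eq ?_) (key.trans hU)
  unfold Prob
  apply sum_congr rfl
  intro x hx
  apply sum_congr rfl
  intro y _
  have hx' : ∀ i, ∀ j : Fin k, x i j ∈ σ i j := fun i j =>
    Fintype.mem_piFinset.1 (Fintype.mem_piFinset.1 hx i) j
  simp only [hx', implies_true, true_and]
  split_ifs <;> rfl

end Pool.Agent.Results.MP_e6fa8b_nt.RandomSumShifts
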