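import Pool.Agent.R512.L.RMain

/-!
# The Hardy-Littlewood-Chowla sums with the sieve model of the von Mangoldt function

The von Mangoldt function is replaced by its sieve model `Λ_z`, the normalised indicator function of the integers
without prime factors `p ≤ z`, where `z → ∞` slowly. Without Liouville factors the averages tend to the singular
series. With `l ≥ 1` Liouville factors the averages are smaller, by a fixed factor `1 - c l` which depends neither on
the number `k` of the shifts of `Λ_z` nor on `z` nor on the shifts.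

The theorem on uniform bounds for products of the Liouville function over periodic sets (library `Y958.U` of the
starting files) is applied to the set of the `n` such that all the `n + h i` have no prime factor `p ≤ z`; its density
is computed with the Chinese remainder theorem.
-/

set_option autoImplicit false

namespace Pool.Agent.Results.MP_e6fa8b_nt.SieveModelUniformGap

open Finset Filter Topology

/-- The primes `p ≤ z`. -/
def primes (z : ℕ) : Finset ℕ := (Icc 1 z).filter Nat.Prime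

open Classical in
/-- The sieve model `Λ_z` of the von Mangoldt function: `∏_{p ≤ z} (1 - 1 / p)⁻¹` at the integers which are divisible by
no prime `p ≤ z`, and `0` at the others. -/
noncomputable def LamZ (z n : ℕ) : ℝ := if ∀ p ∈ primes z, ¬ p ∣ n then ∏ p ∈ primes z, (1 - 1 / (p : ℝ))⁻¹ else 0

/-- The Liouville function. -/
noncomputable def lam (n : ℕ) : ℝ := (-1) ^ ArithmeticFunction.cardFactors n

/-- The number of the distinct residues modulo `p` among the `h i`. -/
def nu {k : ℕ} (h : Fin k → ℕ) (p : ℕ) : ℕ := (univ.image (fun i => h i % p)).card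

/-- The product of the factors of the singular series at the primes `p ≤ z`. -/
noncomputable def sing {k : ℕ} (z : ℕ) (h : Fin k → ℕ) : ℝ :=
  ∏ p ∈ primes z, (1 - (nu h p : ℝ) / p) / (1 - 1 / (p : ℝ)) ^ k

open Classical in
/-- The set `E` has logarithmic density zero. -/
def LogDensityZero (E : Set ℕ) : Prop :=
  Tendsto (fun X : ℕ => (∑ N ∈ Icc 1 X, if N ∈ E then (1 : ℝ) / N else 0) / Real.log X) atTop (𝓝 0)

/-- The singular series converges: its partial products are nonnegative and decreasing from some point on. -/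
lemma sing_tendsto {k : ℕ} (h : Fin k → ℕ) (hh : Function.Injective h) :
    ∃ S : ℝ, Tendsto (fun z => sing z h) atTop (𝓝 S) := by
  classical
  have hfac : ∀ p : ℕ, p.Prime → 0 < 1 - 1 / (p : ℝ) := fun p hp => Pool.Agent.R512.L.fac_pos hp
  have hnn : ∀ z, 0 ≤ sing z h := by
    intro z
    apply prod_nonneg
    intro p hp
    have hpp : p.Prime := (mem_filter.1 hp).2
    have h1 := hfac p hpp
    have h2 : (nu h p : ℝ) / p ≤ 1 := by
      rw [div_le_one (by exact_mod_cast hpp.pos)]
      exact_mod_cast Pool.Agent.R512.L.nu_le h p hpp.pos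
    exact div_nonneg (by linarith) (by positivity)
  set m : ℕ := ∑ i, h i with hm
  have hanti : ∀ z, sing (z + m + 1) h ≤ sing (z + m) h := by
    intro z
    have h0 := hnn (z + m)
    unfold sing primes at h0 ⊢
    by_cases hp : (z + m + 1).Prime
    · have e1 : (Icc 1 (z + m + 1)).filter Nat.Prime = insert (z + m + 1) ((Icc 1 (z + m)).filter Nat.Prime) := by
        ext p
        simp only [mem_filter, mem_Icc, mem_insert]
        constructor
        · rintro ⟨⟨h1, h2⟩, h3⟩
          by_cases h4 : p = z + m + 1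
          · exact Or.inl h4
          · exact Or.inr ⟨⟨h1, by omega⟩, h3⟩
        · rintro (rfl | ⟨⟨h1, h2⟩, h3⟩)
          · exact ⟨⟨by omega, le_rfl⟩, hp⟩
          · exact ⟨⟨h1, by omega⟩, h3⟩
      rw [e1, prod_insert (by simp)]
      have hnu : nu h (z + m + 1) = k := by
        unfold nu
        rw [card_image_of_injective, card_univ, Fintype.card_fin]
        intro i j hij
        have hlt : ∀ i, h i < z + m + 1 := by
          intro i
          have : h i ≤ m := single_le_sum (f := h) (fun _ _ => Nat.zero_le _) (mem_univ i)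
          omega
        simp only at hij
        rw [Nat.mod_eq_of_lt (hlt i), Nat.mod_eq_of_lt (hlt j)] at hij
        exact hh hij
      rw [hnu]
      have h1 := hfac _ hp
      have hp0 : (0 : ℝ) < ((z + m + 1 : ℕ) : ℝ) := by exact_mod_cast hp.pos
      have h2 : 1 - (k : ℝ) / ((z + m + 1 : ℕ) : ℝ) ≤ (1 - 1 / ((z + m + 1 : ℕ) : ℝ)) ^ k := by
        have h3 := one_add_mul_le_pow (a := -(1 / ((z + m + 1 : ℕ) : ℝ))) (by linarith) k
        have e2 : (1 : ℝ) + k * -(1 / ((z + m + 1 : ℕ) : ℝ)) = 1 - (k : ℝ) / ((z + m + 1 : ℕ) : ℝ) := by ring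
        have e3 : (1 : ℝ) + -(1 / ((z + m + 1 : ℕ) : ℝ)) = 1 - 1 / ((z + m + 1 : ℕ) : ℝ) := by ring
        rw [e2, e3] at h3
        exact h3
      have h4 : (1 - (k : ℝ) / ((z + m + 1 : ℕ) : ℝ)) / (1 - 1 / ((z + m + 1 : ℕ) : ℝ)) ^ k ≤ 1 := by
        rw [div_le_one (by positivity)]
        exact h2
      calc _ ≤ 1 * _ := mul_le_mul_of_nonneg_right h4 h0
        _ = _ := one_mul _
    · have e1 : (Icc 1 (z + m + 1)).filter Nat.Prime = (Icc 1 (z + m)).filter Nat.Prime := by
        ext p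
        simp only [mem_filter, mem_Icc]
        constructor
        · rintro ⟨⟨h1, h2⟩, h3⟩
          refine ⟨⟨h1, ?_⟩, h3⟩
          by_contra h4
          have : p = z + m + 1 := by omega
          rw [this] at h3
          exact hp h3
        · rintro ⟨⟨h1, h2⟩, h3⟩
          exact ⟨⟨h1, by omega⟩, h3⟩
      rw [e1]
  have hanti2 : Antitone (fun z => sing (z + m) h) := by
    apply antitone_nat_of_succ_le
    intro z
    have := hanti z
    rwa [show z + m + 1 = z + 1 + m by ring] at this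
  have h5 := tendsto_atTop_ciInf hanti2 ⟨0, by rintro _ ⟨z, rfl⟩; exact hnn _⟩
  exact ⟨_, (tendsto_add_atTop_iff_nat m).1 h5⟩

/-- There are constants `c l > 0`, a set `E` of logarithmic density zero and a function `Z` with `Z N → ∞` with the
following properties, for all `k ≥ 0`, all distinct `h 1, ..., h k` and all `l`, `h' 1, ..., h' l`. The partial products
`sing z h` converge to a limit `S` (the singular series), and for all large `N` and all `z ≤ Z N`

* `|(1/N) ∑ n ≤ N, ∏ i, Λ_z(n + h i) - sing z h| ≤ 1 / (z + 1)`;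
* if `l ≥ 1` and the `h' j` are distinct, and `N` is not in `E`:
  `|(1/N) ∑ n ≤ N, (∏ i, Λ_z(n + h i)) (∏ j, λ(n + h' j))| ≤ (1 - c l) * sing z h`;
* if `l ≥ 1` and the `h' j` are distinct:
  `|(1/log N) ∑ n ≤ N, (∏ i, Λ_z(n + h i)) (∏ j, λ(n + h' j)) / n| ≤ (1 - c l) * sing z h`. -/
theorem result : ∃ (c : ℕ → ℝ) (E : Set ℕ) (Z : ℕ → ℕ), (∀ l, 0 < c l) ∧ LogDensityZero E ∧ Tendsto Z atTop atTop ∧
    ∀ (k l : ℕ) (h : Fin k → ℕ) (h' : Fin l → ℕ), Function.Injective h →
      (∃ S : ℝ, Tendsto (fun z => sing z h) atTop (𝓝 S)) ∧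
      (∃ N₀ : ℕ, ∀ N : ℕ, N₀ ≤ N → ∀ z : ℕ, z ≤ Z N →
        |(1 / (N : ℝ)) * ∑ n ∈ Icc 1 N, ∏ i, LamZ z (n + h i) - sing z h| ≤ 1 / ((z : ℝ) + 1)) ∧
      (1 ≤ l → Function.Injective h' →
        (∃ N₀ : ℕ, ∀ N : ℕ, N₀ ≤ N → N ∉ E → ∀ z : ℕ, z ≤ Z N →
          |(1 / (N : ℝ)) * ∑ n ∈ Icc 1 N, (∏ i, LamZ z (n + h i)) * ∏ j, lam (n + h' j)| ≤ (1 - c l) * sing z h) ∧
        ∃ N₀ : ℕ, ∀ N : ℕ, N₀ ≤ N → ∀ z : ℕ, z ≤ Z N →
          |(1 / Real.log N) * ∑ n ∈ Icc 1 N, (∏ i, LamZ z (n + h i)) * (∏ j, lam (n + h' j)) / n| ≤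
            (1 - c l) * sing z h) := by
  obtain ⟨c, E, Z, hc, hE, hZ, hmain⟩ := Pool.Agent.R512.L.rough_final
  refine ⟨c, E, Z, hc, hE, hZ, fun k l h h' hh => ?_⟩
  obtain ⟨⟨N₁, h1⟩, h2⟩ := hmain k l h h'
  refine ⟨sing_tendsto h hh, ⟨N₁ + 1, fun N hN z hz => ?_⟩, fun hl hinj => ?_⟩
  · have h3 := h1 N (by omega) z hz
    have hN0 : (0 : ℝ) < N := by exact_mod_cast (by omega : 0 < N)
    have e1 : (1 / (N : ℝ)) * ∑ n ∈ Icc 1 N, ∏ i, LamZ z (n + h i) - sing z h =
        (1 / (N : ℝ)) * (∑ n ∈ Icc 1 N, ∏ i, LamZ z (n + h i) - sing z h * N) := by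
      field_simp
    rw [e1, abs_mul, abs_of_pos (by positivity : (0 : ℝ) < 1 / N)]
    calc (1 / (N : ℝ)) * |∑ n ∈ Icc 1 N, ∏ i, LamZ z (n + h i) - sing z h * N| ≤ (1 / (N : ℝ)) * (N / ((z : ℝ) + 1)) :=
          mul_le_mul_of_nonneg_left h3 (by positivity)
      _ = 1 / ((z : ℝ) + 1) := by field_simp
  · obtain ⟨⟨N₂, h3⟩, ⟨N₃, h4⟩⟩ := h2 hl hinj
    refine ⟨⟨N₂ + 1, fun N hN hNE z hz => ?_⟩, ⟨N₃ + 2, fun N hN z hz => ?_⟩⟩
    · have h5 := h3 N (by omega) hNE z hz
      have hN0 : (0 : ℝ) < N := by exact_mod_cast (by omega : 0 < N)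
      rw [abs_mul, abs_of_pos (by positivity : (0 : ℝ) < 1 / N)]
      calc (1 / (N : ℝ)) * |∑ n ∈ Icc 1 N, (∏ i, LamZ z (n + h i)) * ∏ j, lam (n + h' j)| ≤
          (1 / (N : ℝ)) * ((1 - c l) * sing z h * N) := mul_le_mul_of_nonneg_left h5 (by positivity)
        _ = (1 - c l) * sing z h := by field_simp
    · have h5 := h4 N (by omega) z hz
      have hlog : 0 < Real.log N := Real.log_pos (by exact_mod_cast (by omega : 1 < N))
      rw [abs_mul, abs_of_pos (by positivity : (0 : ℝ) < 1 / Real.log N)]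
      calc (1 / Real.log N) * |∑ n ∈ Icc 1 N, (∏ i, LamZ z (n + h i)) * (∏ j, lam (n + h' j)) / n| ≤
          (1 / Real.log N) * ((1 - c l) * sing z h * Real.log N) := mul_le_mul_of_nonneg_left h5 (by positivity)
        _ = (1 - c l) * sing z h := by field_simp

end Pool.Agent.Results.MP_e6fa8b_nt.SieveModelUniformGap
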