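import Pool.Agent.R482.Fam5

/-!
# The joint conjecture for almost all vectors of shifts from thin families of nearly minimal additive energy

One shift `h₀` of the von Mangoldt function is arbitrary and fixed; `k` further shifts of it and `l` shifts of the
Liouville function run over arbitrary families of integers up to `B N` whose additive energy of some order `p` is, up
to a power of `log N`, the least possible one. Such a family may have as few as about `N ^ (1 / p)` members; examples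
are the values `f(1), ..., f(x)` of a polynomial `f` of degree `d`, where `x ^ d` is of the size of `N`, for all large
orders `p` (`Pool.Agent.R482.Fam.poly_thin`). Used from the starting files: the bounds for the exponential sums over the von
Mangoldt function minus its sieve model and over the Liouville function, and the first moments along families of small
energy (`Pool.Agent.H373R2.T7`, `Pool.Agent.H560R3.GB`).
-/

set_option autoImplicit false

namespace Pool.Agent.Results.MP_e6fa8b_nt.ThinFamilies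

open Finset Filter

/-- The additive energy of order `p` of the family `s 1, ..., s x`: the number of the solutions of
`s (v 1) + ... + s (v p) = s (w 1) + ... + s (w p)` with all `v i`, `w i` in `{1, ..., x}`. -/
def energy (p x : ℕ) (s : ℕ → ℕ) : ℕ :=
  (((Fintype.piFinset fun _ : Fin p => Icc 1 x) ×ˢ (Fintype.piFinset fun _ : Fin p => Icc 1 x)).filter
    (fun q => ∑ i, s (q.1 i) = ∑ i, s (q.2 i))).card

/-- `s 1, ..., s x` is a thin family at the scale `N`: its members are at most `B N` and its energy of order `p` is at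
most `log ^ C N` times `x ^ (2 p) / N`. -/
def Thin (p B C N x : ℕ) (s : ℕ → ℕ) : Prop :=
  1 ≤ x ∧ (∀ m ∈ Icc 1 x, s m ≤ B * N) ∧ (energy p x s : ℝ) * N ≤ Real.log N ^ C * (x : ℝ) ^ (2 * p)

/-- The number `ν_p` of the distinct residues modulo `p` among the shifts `h i`. -/
def nu {k : ℕ} (h : Fin k → ℕ) (p : ℕ) : ℕ := (univ.image fun i => h i % p).card

/-- The product of the factors `β_p` of the singular series of the shifts `h i` over the primes `p ≤ z`. -/
noncomputable def sing {k : ℕ} (h : Fin k → ℕ) (z : ℕ) : ℝ :=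
  ∏ p ∈ (Icc 1 z).filter Nat.Prime, ((1 - 1 / (p : ℝ)) ^ k)⁻¹ * (1 - (nu h p : ℝ) / p)

/-- The Liouville function, with complex values. -/
noncomputable def lam (n : ℕ) : ℂ := (-1) ^ ArithmeticFunction.cardFactors n

/-- The singular series `S` of the shifts `h i` converges, and
`|∑_{n ≤ X} ∏ i, Λ(n + h i) - S X| ≤ N / log ^ U N` for all `X ≤ B N`. -/
def HardyLittlewood (B U N : ℕ) {k : ℕ} (h : Fin k → ℕ) : Prop :=
  ∃ S : ℝ, Tendsto (sing h) atTop (nhds S) ∧ ∀ X : ℕ, X ≤ B * N →
    |∑ n ∈ Icc 1 X, ∏ i, ArithmeticFunction.vonMangoldt (n + h i) - S * X| ≤ N / Real.log N ^ U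

/-- For every set `K` of indices of the shifts `a i` and every nonempty set `J` of indices of the shifts `b j`,
`|∑_{n ≤ X} θ(n) ∏_{i ∈ K} Λ(n + a i) ∏_{j ∈ J} λ(n + b j)| ≤ N / log ^ U N` for all `X ≤ B N`, and the same with the
further factor `Λ(n + h₀)`. -/
def LiouvilleSmall (B U N : ℕ) (θ : ℕ → ℂ) (h₀ : ℕ) {k l : ℕ} (a : Fin k → ℕ) (b : Fin l → ℕ) : Prop :=
  ∀ K : Finset (Fin k), ∀ J : Finset (Fin l), J.Nonempty → ∀ X : ℕ, X ≤ B * N →
    ‖∑ n ∈ Icc 1 X, θ n * (∏ i ∈ K, (ArithmeticFunction.vonMangoldt (n + a i) : ℂ)) * ∏ j ∈ J, lam (n + b j)‖ ≤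
      N / Real.log N ^ U ∧
    ‖∑ n ∈ Icc 1 X, θ n * ((ArithmeticFunction.vonMangoldt (n + h₀) : ℂ) *
      ∏ i ∈ K, (ArithmeticFunction.vonMangoldt (n + a i) : ℂ)) * ∏ j ∈ J, lam (n + b j)‖ ≤ N / Real.log N ^ U

lemma sing_eq {k : ℕ} (h₀ : ℕ) (a : Fin k → ℕ) :
    (fun z => Pool.Agent.H373R2.T7.singZ (fun i => (a i : ℤ) - h₀) z) = sing (Fin.cons h₀ a : Fin (k + 1) → ℕ) := by
  funext z
  have h1 := Pool.Agent.R482.Sg.singZ_sg (Fin.cons h₀ a : Fin (k + 1) → ℕ) z
  simp only [Fin.cons_zero, Fin.cons_succ] at h1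
  rw [h1]
  rfl

/-- Let `k ≥ 1`, `l`, `p ≥ 1`, `B`, `C`, `T`, `U` be fixed and let `N` be large. Let `h₀ ≤ B N`, let `s i` (`i < k`) and
`r j` (`j < l`) be thin families with `x i` and `y j` members, and let `θ q` be at most `log ^ T N` weights, bounded by
`log ^ T N` on `[1, B N]`. Then, with at most `∏ x i ∏ y j / log ^ U N` exceptions, all pairs `(m, v)` of vectors with
`1 ≤ m i ≤ x i`, `1 ≤ v j ≤ y j` have the following properties: the formula of Hardy and Littlewood holds for the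
shifts `h₀`, `s i (m i)` for all lengths `X ≤ B N`, and all the correlations of these von Mangoldt factors and of at
least one of the Liouville factors at the shifts `r j (v j)` are small, for all lengths and all weights `θ q`. -/
theorem result (k l p B C T U : ℕ) (hk : 1 ≤ k) (hp : 1 ≤ p) : ∃ N₀ : ℕ, ∀ N : ℕ, N₀ ≤ N → ∀ h₀ : ℕ, h₀ ≤ B * N →
    ∀ (x : Fin k → ℕ) (s : Fin k → ℕ → ℕ) (y : Fin l → ℕ) (r : Fin l → ℕ → ℕ),
    (∀ i, Thin p B C N (x i) (s i)) → (∀ j, Thin p B C N (y j) (r j)) →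
    ∀ L : ℕ, (L : ℝ) ≤ Real.log N ^ T → ∀ θ : Fin L → ℕ → ℂ,
    (∀ q n, 1 ≤ n → n ≤ B * N → ‖θ q n‖ ≤ Real.log N ^ T) →
    ∃ E : Finset ((Fin k → ℕ) × (Fin l → ℕ)), (E.card : ℝ) ≤ (∏ i, (x i : ℝ)) * (∏ j, (y j : ℝ)) / Real.log N ^ U ∧
      ∀ (m : Fin k → ℕ) (v : Fin l → ℕ), (∀ i, m i ∈ Icc 1 (x i)) → (∀ j, v j ∈ Icc 1 (y j)) → (m, v) ∉ E →
        HardyLittlewood B U N (Fin.cons h₀ (fun i => s i (m i)) : Fin (k + 1) → ℕ) ∧
        ∀ q, LiouvilleSmall B U N (θ q) h₀ (fun i => s i (m i)) (fun j => r j (v j)) := by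
  classical
  have hen : ∀ (p x : ℕ) (s : ℕ → ℕ), energy p x s = Pool.Agent.H373R2.T7.energy p x (fun m => (s m : ℤ)) := by
    intro p x s
    unfold energy Pool.Agent.H373R2.T7.energy
    congr 1
    apply filter_congr
    intro q _
    rw [← Nat.cast_sum, ← Nat.cast_sum]
    exact_mod_cast Iff.rfl
  · obtain ⟨N₀, h0⟩ := Pool.Agent.R482.Fam.joint k l p B C (T + 2) U hk hp
    obtain ⟨N₁, h1⟩ := Pool.Agent.H373R2.T7.ev_L' (Real.log (2 * (B + 1 : ℝ)) + 8)
    refine ⟨N₀ + N₁ + 3, fun N hN h₀ hh₀ x s y r hs hr L hL θ hθ => ?_⟩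
    have hLg := h1 N (by omega)
    have hN0' : (0 : ℝ) < N := by exact_mod_cast (by omega : 0 < N)
    have hB0' : (0 : ℝ) ≤ B := Nat.cast_nonneg _
    have hlc1 : 0 ≤ Real.log (2 * (B + 1 : ℝ)) := Real.log_nonneg (by linarith)
    obtain ⟨Lg, hLgd⟩ : ∃ Lg, Lg = Real.log N := ⟨_, rfl⟩
    rw [← hLgd] at hLg hL hθ ⊢
    have hL8 : 8 ≤ Lg := by linarith
    have hL1 : 1 ≤ Lg := by linarith
    have hΛ : ∀ n, 1 ≤ n → n ≤ B * N → ‖(ArithmeticFunction.vonMangoldt (n + h₀) : ℂ)‖ ≤ Lg ^ 2 := by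
      intro n hn1 hn2
      rw [Complex.norm_real, Real.norm_eq_abs, abs_of_nonneg ArithmeticFunction.vonMangoldt_nonneg]
      refine ArithmeticFunction.vonMangoldt_le_log.trans ?_
      have h6 : ((n + h₀ : ℕ) : ℝ) ≤ 2 * (B + 1 : ℝ) * N := by
        have h7 : n + h₀ ≤ 2 * (B * N) := by omega
        have h8 : ((n + h₀ : ℕ) : ℝ) ≤ ((2 * (B * N) : ℕ) : ℝ) := by exact_mod_cast h7
        push_cast at h8 ⊢
        linarith
      refine (Real.log_le_log (by exact_mod_cast (by omega : 0 < n + h₀)) h6).trans ?_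
      rw [Real.log_mul (by positivity) hN0'.ne', ← hLgd]
      nlinarith
    obtain ⟨e, -⟩ : ∃ e : (Fin L × Bool) ≃ Fin (L * 2), True := by
      refine ⟨(Fintype.equivFinOfCardEq ?_), trivial⟩
      simp
    have h2 := h0 N (by omega) h₀ hh₀ x s y r (fun i => (hs i).1) (fun i => (hs i).2.1)
      (fun i => by rw [← hen]; exact (hs i).2.2) (fun j => (hr j).1) (fun j => (hr j).2.1)
      (fun j => by rw [← hen]; exact (hr j).2.2) (L * 2) (by
        rw [← hLgd]
        push_cast
        rw [pow_add]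
        apply mul_le_mul hL _ (by norm_num) (by positivity)
        nlinarith)
      (fun q n => θ (e.symm q).1 n * (if (e.symm q).2 then (ArithmeticFunction.vonMangoldt (n + h₀) : ℂ) else 1)) (by
        intro q n hn1 hn2
        rw [← hLgd, norm_mul, pow_add]
        apply mul_le_mul (hθ _ n hn1 hn2) _ (norm_nonneg _) (by positivity)
        split_ifs
        · exact hΛ n hn1 hn2
        · rw [norm_one]; nlinarith)
    rw [← hLgd] at h2
    refine ⟨_, h2, fun m v hm hv hE => ?_⟩
    rw [mem_filter, mem_product, Fintype.mem_piFinset, Fintype.mem_piFinset, not_and_or, not_not] at hE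
    obtain ⟨⟨S, hS1, hS2⟩, hS3⟩ := hE.resolve_left (fun h => h ⟨hm, hv⟩)
    refine ⟨⟨S, ?_, fun X hX => ?_⟩, fun q K J hJ X hX => ⟨?_, ?_⟩⟩
    · rw [← sing_eq]
      exact hS1
    · have h3 := hS2 X hX
      rw [← hLgd]
      refine le_trans (le_of_eq ?_) h3
      congr 2
      unfold Pool.Agent.R482.Fam.FS
      apply sum_congr rfl
      intro n _
      rw [Fin.prod_univ_succ, Fin.cons_zero]
      simp only [Fin.cons_succ]
    · have h3 := hS3 (e (q, false)) K J hJ X hX
      rw [← hLgd]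
      refine le_trans (le_of_eq ?_) h3
      congr 1
      unfold Pool.Agent.R482.Fam.GS
      apply sum_congr rfl
      intro n _
      rw [Equiv.symm_apply_apply]
      simp only [Bool.false_eq_true, if_false, mul_one]
      rfl
    · have h3 := hS3 (e (q, true)) K J hJ X hX
      rw [← hLgd]
      refine le_trans (le_of_eq ?_) h3
      congr 1
      unfold Pool.Agent.R482.Fam.GS
      apply sum_congr rfl
      intro n _
      rw [Equiv.symm_apply_apply]
      simp only [if_true]
      rw [← mul_assoc]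
      rfl

end Pool.Agent.Results.MP_e6fa8b_nt.ThinFamilies
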